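import Pool.Agent.Lib.MP_4fbe7c_an.ND.Base

/-! Project ND, module GRD (helper93): the gradient of the steady state is small if `m` is nearly
constant. -/

set_option autoImplicit false

open Set MeasureTheory Filter Topology

namespace Pool.Agent.Lib.MP_4fbe7c_an.ND

variable {p : ℕ} {Ω : Set (Eu p)} {q : Eu p → ℝ}

/-- The Lipschitz estimate applied to `θ - c₀`. -/
theorem grd_lip {C c : ℝ} (hC : LipC Ω q C c) {θ : Eu p → ℝ} {θ' : Eu p → Eu p}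
    {θ'' : Eu p → Eu p →L[ℝ] Eu p} (h2 : C2 Ω θ θ' θ'') (hn : Neu Ω q θ') (c₀ d M F T : ℝ)
    (hd : 0 < d) (hM : 0 < M) (hF : 0 ≤ F) (hT : 0 < T) (hdT : d * T ≤ c) (hFT : 8 * F * T ≤ M)
    (hz : ∀ x ∈ closure Ω, |θ x - c₀| ≤ M) (hf : ∀ x ∈ closure Ω, |d * tr (θ'' x)| ≤ F) :
    LipOn Ω (C * M / Real.sqrt (d * T)) θ := by
  have h3 := (h2.evo hn).lin (Evo.const (Ω := Ω) (q := q) c₀) 1 (-1)
  have h4 := hC _ _ _ _ d M F T h3 hd hM hF hT hdT hFT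
    (by
      intro t _ _ x hx
      have : (1 : ℝ) * θ x + -1 * c₀ = θ x - c₀ := by ring
      rw [this]
      exact hz x hx)
    (by
      intro t _ _ x hx
      have e : tr ((1 : ℝ) • θ'' x + (-1 : ℝ) • (0 : Eu p →L[ℝ] Eu p)) = tr (θ'' x) := by
        rw [tr_add, tr_smul, tr_smul, tr_zero]
        ring
      rw [e]
      have e2 : (1 : ℝ) * 0 + -1 * 0 - d * tr (θ'' x) = -(d * tr (θ'' x)) := by ring
      rw [e2, abs_neg]
      exact hf x hx)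
  intro x hx y hy
  have h5 := h4 x hx y hy
  have e : (1 : ℝ) * θ x + -1 * c₀ - (1 * θ y + -1 * c₀) = θ x - θ y := by ring
  rw [e] at h5
  exact h5

/-- Bounds for the steady state. -/
theorem grd_bounds (hRng : RngStatement) (hΩ : Dom Ω q) {m : Eu p → ℝ} {a d ε : ℝ}
    {θ : Eu p → ℝ} {θ' : Eu p → Eu p} {θ'' : Eu p → Eu p →L[ℝ] Eu p} (ha : 0 < a) (hd : 0 < d)
    (hε : 0 ≤ ε) (hS : Stdy Ω q m d θ θ' θ'')
    (hm : ∀ x ∈ closure Ω, a ≤ m x ∧ m x ≤ (1 + ε) * a) :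
    (∀ x ∈ closure Ω, a ≤ θ x ∧ θ x ≤ (1 + ε) * a) ∧
    (∀ x ∈ closure Ω, |θ x * (m x - θ x)| ≤ (1 + ε) * ε * a ^ 2) ∧
    (∀ x ∈ closure Ω, |d * tr (θ'' x)| ≤ (1 + ε) * ε * a ^ 2) := by
  have h1 := hRng p Ω q m a ((1 + ε) * a) d θ θ' θ'' hΩ hd hS hm
  have h2 : ∀ x ∈ closure Ω, |θ x * (m x - θ x)| ≤ (1 + ε) * ε * a ^ 2 := by
    intro x hx
    obtain ⟨h3, h4⟩ := h1 x hx
    obtain ⟨h5, h6⟩ := hm x hx
    rw [abs_mul]
    have h7 : |θ x| ≤ (1 + ε) * a := by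
      rw [abs_of_pos (hS.pos x hx)]
      exact h4
    have h8 : |m x - θ x| ≤ ε * a := by
      rw [abs_le]
      constructor <;> nlinarith
    calc |θ x| * |m x - θ x| ≤ ((1 + ε) * a) * (ε * a) :=
          mul_le_mul h7 h8 (abs_nonneg _) (by positivity)
      _ = (1 + ε) * ε * a ^ 2 := by ring
  refine ⟨h1, h2, ?_⟩
  intro x hx
  have h3 := hS.eq x hx
  have h4 : d * tr (θ'' x) = -(θ x * (m x - θ x)) := by linarith
  rw [h4, abs_neg]
  exact h2 x hx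

/-- Case (a). -/
theorem grd_a (hRng : RngStatement) (hΩ : Dom Ω q) {C c : ℝ} (hC0 : 0 < C)
    (hC : LipC Ω q C c) {m : Eu p → ℝ} {a d ε : ℝ}
    {θ : Eu p → ℝ} {θ' : Eu p → Eu p} {θ'' : Eu p → Eu p →L[ℝ] Eu p} (ha : 0 < a) (hd : 0 < d)
    (hε : 0 < ε) (hS : Stdy Ω q m d θ θ' θ'')
    (hm : ∀ x ∈ closure Ω, a ≤ m x ∧ m x ≤ (1 + ε) * a)
    (hdT : d * (1 / (16 * (1 + ε) * a)) ≤ c) :
    ∀ x ∈ closure Ω, d * ‖θ' x‖ ^ 2 ≤ 4 * C ^ 2 * ((1 + ε) * ε ^ 2 * a ^ 3) := by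
  obtain ⟨h1, h2, h3⟩ := grd_bounds hRng hΩ ha hd hε.le hS hm
  set T : ℝ := 1 / (16 * (1 + ε) * a) with hT
  have hT0 : 0 < T := by positivity
  have h4 := grd_lip hC hS.c2 hS.neu ((1 + ε / 2) * a) d (ε * a / 2) ((1 + ε) * ε * a ^ 2) T hd
    (by positivity) (by positivity) hT0 hdT
    (by
      rw [hT]
      have : 8 * ((1 + ε) * ε * a ^ 2) * (1 / (16 * (1 + ε) * a)) = ε * a / 2 := by
        field_simp
        ring
      rw [this])
    (by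
      intro x hx
      obtain ⟨h5, h6⟩ := h1 x hx
      rw [abs_le]
      constructor <;> nlinarith)
    h3
  have hs : 0 < Real.sqrt (d * T) := Real.sqrt_pos.mpr (by positivity)
  have h5 := LipOn.norm_gradient_le hΩ (by positivity) h4 hS.c2.toC1
  intro x hx
  have h6 := h5 x hx
  have h7 : ‖θ' x‖ ^ 2 ≤ (C * (ε * a / 2) / Real.sqrt (d * T)) ^ 2 :=
    pow_le_pow_left₀ (norm_nonneg _) h6 2
  have h8 : (C * (ε * a / 2) / Real.sqrt (d * T)) ^ 2 = C ^ 2 * (ε * a / 2) ^ 2 / (d * T) := by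
    rw [div_pow, Real.sq_sqrt (by positivity), mul_pow]
  rw [h8] at h7
  calc d * ‖θ' x‖ ^ 2 ≤ d * (C ^ 2 * (ε * a / 2) ^ 2 / (d * T)) :=
        mul_le_mul_of_nonneg_left h7 hd.le
    _ = 4 * C ^ 2 * ((1 + ε) * ε ^ 2 * a ^ 3) := by
        rw [hT]
        field_simp
        ring

/-- Case (b). -/
theorem grd_b (hRng : RngStatement) (hIbp : IbpStatement) (hΩ : Dom Ω q) {C c δ : ℝ}
    (hC0 : 0 < C) (hc0 : 0 < c) (hδ0 : 0 < δ)
    (hC : LipC Ω q C c)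
    (hδ : ∀ (f : Eu p → ℝ) (f' : Eu p → Eu p), C1 Ω f f' →
      LipOn Ω (C / (2 * Real.sqrt c)) f →
      ∫ x in Ω, ‖f' x‖ ^ 2 < δ → ∀ x ∈ closure Ω, ∀ y ∈ closure Ω, |f x - f y| < 1 / 2)
    {m : Eu p → ℝ} (hmc : ContinuousOn m (closure Ω)) {a d ε : ℝ}
    {θ : Eu p → ℝ} {θ' : Eu p → Eu p} {θ'' : Eu p → Eu p →L[ℝ] Eu p} (ha : 0 < a) (hd : 0 < d)
    (hε : 0 < ε) (hS : Stdy Ω q m d θ θ' θ'')
    (hm : ∀ x ∈ closure Ω, a ≤ m x ∧ m x ≤ (1 + ε) * a)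
    (hdT : c < d * (1 / (16 * (1 + ε) * a))) :
    ∀ x ∈ closure Ω, d * ‖θ' x‖ ^ 2 ≤
      (4 * C ^ 2 + C ^ 2 * volume.real Ω ^ 2 / (256 * c ^ 2 * δ ^ 2)) *
        ((1 + ε) * ε ^ 2 * a ^ 3) := by
  obtain ⟨h1, h2, h3⟩ := grd_bounds hRng hΩ ha hd hε.le hS hm
  have hV := hΩ.volume_real_pos
  set V : ℝ := volume.real Ω with hVdef
  have hθc : ContinuousOn θ (closure Ω) := hS.c2.toC1.c0
  obtain ⟨xM, hxM, hM⟩ := hΩ.isCompact.exists_isMaxOn hΩ.closure_nonempty hθc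
  obtain ⟨xm, hxm, hmn⟩ := hΩ.isCompact.exists_isMinOn hΩ.closure_nonempty hθc
  have hM' : ∀ x ∈ closure Ω, θ x ≤ θ xM := fun x hx => hM hx
  have hmn' : ∀ x ∈ closure Ω, θ xm ≤ θ x := fun x hx => hmn hx
  set w : ℝ := θ xM - θ xm with hw
  set F : ℝ := (1 + ε) * ε * a ^ 2 with hF
  have hF0 : 0 < F := by positivity
  have hw0 : 0 ≤ w := sub_nonneg.mpr (hM' xm hxm)
  set T : ℝ := c / d with hT
  have hT0 : 0 < T := by positivity
  have hdTc : d * T = c := by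
    rw [hT]
    field_simp
  -- `d > 16 (1+ε) a c`
  have hdc : 16 * (1 + ε) * a * c < d := by
    have h4 : c * (16 * (1 + ε) * a) < d * (1 / (16 * (1 + ε) * a)) * (16 * (1 + ε) * a) :=
      mul_lt_mul_of_pos_right hdT (by positivity)
    have h5 : d * (1 / (16 * (1 + ε) * a)) * (16 * (1 + ε) * a) = d := by
      field_simp
    rw [h5] at h4
    linarith
  have hosc : ∀ x ∈ closure Ω, |θ x - (θ xM + θ xm) / 2| ≤ w / 2 := by
    intro x hx
    have h4 := hM' x hx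
    have h5 := hmn' x hx
    rw [abs_le, hw]
    constructor <;> linarith
  have hsc : 0 < Real.sqrt c := Real.sqrt_pos.mpr hc0
  -- the Lipschitz estimate, for any admissible `M`
  have key : ∀ M : ℝ, 0 < M → 8 * F * T ≤ M → w / 2 ≤ M → LipOn Ω (C * M / Real.sqrt c) θ := by
    intro M hM0 hM1 hM2
    have h4 := grd_lip hC hS.c2 hS.neu ((θ xM + θ xm) / 2) d M F T hd hM0 hF0.le hT0 hdTc.le hM1
      (fun x hx => (hosc x hx).trans hM2) h3
    rw [hdTc] at h4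
    exact h4
  have key2 : ∀ M : ℝ, 0 < M → 8 * F * T ≤ M → w / 2 ≤ M → ∀ x ∈ closure Ω,
      d * ‖θ' x‖ ^ 2 ≤ d * (C ^ 2 * M ^ 2 / c) := by
    intro M hM0 hM1 hM2 x hx
    have h5 := LipOn.norm_gradient_le hΩ (by positivity) (key M hM0 hM1 hM2) hS.c2.toC1 x hx
    have h7 : ‖θ' x‖ ^ 2 ≤ (C * M / Real.sqrt c) ^ 2 := pow_le_pow_left₀ (norm_nonneg _) h5 2
    have h8 : (C * M / Real.sqrt c) ^ 2 = C ^ 2 * M ^ 2 / c := by
      rw [div_pow, Real.sq_sqrt hc0.le, mul_pow]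
    rw [h8] at h7
    exact mul_le_mul_of_nonneg_left h7 hd.le
  have hY : 0 < (1 + ε) * ε ^ 2 * a ^ 3 := by positivity
  rcases le_or_gt (w / 2) (8 * F * T) with hcase | hcase
  · -- (b1)
    intro x hx
    have h4 := key2 (8 * F * T) (by positivity) le_rfl hcase x hx
    have h5 : d * (C ^ 2 * (8 * F * T) ^ 2 / c) = 64 * C ^ 2 * F ^ 2 * c / d := by
      rw [hT]
      field_simp
      ring
    rw [h5] at h4
    have h6 : 64 * C ^ 2 * F ^ 2 * c / d ≤ 4 * C ^ 2 * ((1 + ε) * ε ^ 2 * a ^ 3) := by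
      rw [div_le_iff₀ hd]
      have h7 : 4 * C ^ 2 * ((1 + ε) * ε ^ 2 * a ^ 3) * (16 * (1 + ε) * a * c) ≤
          4 * C ^ 2 * ((1 + ε) * ε ^ 2 * a ^ 3) * d :=
        mul_le_mul_of_nonneg_left hdc.le (by positivity)
      have h8 : 64 * C ^ 2 * F ^ 2 * c =
          4 * C ^ 2 * ((1 + ε) * ε ^ 2 * a ^ 3) * (16 * (1 + ε) * a * c) := by
        rw [hF]
        ring
      rw [h8]
      exact h7
    have h9 : 0 ≤ C ^ 2 * V ^ 2 / (256 * c ^ 2 * δ ^ 2) * ((1 + ε) * ε ^ 2 * a ^ 3) := by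
      positivity
    rw [add_mul]
    linarith
  · -- (b2)
    have hwpos : 0 < w := by
      have : 0 < 8 * F * T := by positivity
      linarith
    have hLip := key (w / 2) (by linarith) hcase.le le_rfl
    have hgrad := key2 (w / 2) (by linarith) hcase.le le_rfl
    -- the normalised function
    have hf1 : C1 Ω (fun x => w⁻¹ * θ x) (fun x => w⁻¹ • θ' x) := hS.c2.toC1.const_mul w⁻¹
    have hf2 : LipOn Ω (C / (2 * Real.sqrt c)) (fun x => w⁻¹ * θ x) := by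
      intro x hx y hy
      have h4 := hLip x hx y hy
      have h5 : w⁻¹ * θ x - w⁻¹ * θ y = w⁻¹ * (θ x - θ y) := by ring
      rw [h5, abs_mul, abs_of_pos (inv_pos.mpr hwpos)]
      calc w⁻¹ * |θ x - θ y| ≤ w⁻¹ * (C * (w / 2) / Real.sqrt c * ‖x - y‖) :=
            mul_le_mul_of_nonneg_left h4 (inv_pos.mpr hwpos).le
        _ = C / (2 * Real.sqrt c) * ‖x - y‖ := by
            field_simp
    have hint : δ ≤ ∫ x in Ω, ‖w⁻¹ • θ' x‖ ^ 2 := by
      by_contra hcon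
      push Not at hcon
      have h4 := hδ _ _ hf1 hf2 hcon xM hxM xm hxm
      have h5 : w⁻¹ * θ xM - w⁻¹ * θ xm = 1 := by
        rw [← mul_sub, ← hw]
        exact inv_mul_cancel₀ hwpos.ne'
      rw [h5] at h4
      norm_num at h4
    have hint2 : ∫ x in Ω, ‖w⁻¹ • θ' x‖ ^ 2 = (w⁻¹) ^ 2 * ∫ x in Ω, ‖θ' x‖ ^ 2 := by
      rw [← integral_const_mul]
      apply integral_congr_ae
      filter_upwards with x
      rw [norm_smul, mul_pow, Real.norm_eq_abs, sq_abs]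
    have hI : δ * w ^ 2 ≤ ∫ x in Ω, ‖θ' x‖ ^ 2 := by
      rw [hint2] at hint
      have h4 : δ * w ^ 2 ≤ ((w⁻¹) ^ 2 * ∫ x in Ω, ‖θ' x‖ ^ 2) * w ^ 2 :=
        mul_le_mul_of_nonneg_right hint (by positivity)
      have h5 : ((w⁻¹) ^ 2 * ∫ x in Ω, ‖θ' x‖ ^ 2) * w ^ 2 = ∫ x in Ω, ‖θ' x‖ ^ 2 := by
        field_simp
      rwa [h5] at h4
    -- integration by parts
    have hz1 : C1 Ω (fun x => θ x - (θ xM + θ xm) / 2) (fun x => θ' x - 0) :=
      hS.c2.toC1.sub (C1.const ((θ xM + θ xm) / 2))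
    have hz2 := hIbp p Ω q (fun x => θ x - (θ xM + θ xm) / 2) (fun x => θ' x - 0) θ' θ'' hΩ hz1
      hS.c2.toC1.c1 hS.c2.c2 hS.c2.d2 hS.neu
    have hz3 : ∫ x in Ω, inner ℝ (θ' x - 0) (θ' x) = ∫ x in Ω, ‖θ' x‖ ^ 2 := by
      apply integral_congr_ae
      filter_upwards with x
      rw [sub_zero, real_inner_self_eq_norm_sq]
    have hz4 : d * ∫ x in Ω, ‖θ' x‖ ^ 2 =
        ∫ x in Ω, (θ x - (θ xM + θ xm) / 2) * (θ x * (m x - θ x)) := by
      have h4 : ∫ x in Ω, ‖θ' x‖ ^ 2 = -∫ x in Ω, (θ x - (θ xM + θ xm) / 2) * tr (θ'' x) := by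
        rw [hz2, hz3, neg_neg]
      rw [h4, mul_neg, ← integral_const_mul, ← integral_neg]
      apply setIntegral_congr_fun hΩ.measurableSet
      intro x hx
      have h5 := hS.eq x (subset_closure hx)
      have h6 : θ x * (m x - θ x) = -(d * tr (θ'' x)) := by linarith
      simp only
      rw [h6]
      ring
    have hz5 : ∫ x in Ω, (θ x - (θ xM + θ xm) / 2) * (θ x * (m x - θ x)) ≤
        (w / 2 * F) * V := by
      have h4 : ∫ x in Ω, (w / 2 * F) = (w / 2 * F) * V := by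
        rw [setIntegral_const, smul_eq_mul, mul_comm]
      rw [← h4]
      apply setIntegral_mono_on
      · exact hΩ.integrableOn ((hθc.sub continuousOn_const).mul (hθc.mul (hmc.sub hθc)))
      · exact hΩ.integrableOn continuousOn_const
      · exact hΩ.measurableSet
      · intro x hx
        have hx' := subset_closure hx
        calc (θ x - (θ xM + θ xm) / 2) * (θ x * (m x - θ x))
            ≤ |(θ x - (θ xM + θ xm) / 2) * (θ x * (m x - θ x))| := le_abs_self _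
          _ = |θ x - (θ xM + θ xm) / 2| * |θ x * (m x - θ x)| := abs_mul _ _
          _ ≤ w / 2 * F := mul_le_mul (hosc x hx') (h2 x hx') (abs_nonneg _) (by positivity)
    have hwb : w ≤ F * V / (2 * d * δ) := by
      rw [le_div_iff₀ (by positivity)]
      have h4 : d * (δ * w ^ 2) ≤ (w / 2 * F) * V := by
        calc d * (δ * w ^ 2) ≤ d * ∫ x in Ω, ‖θ' x‖ ^ 2 := mul_le_mul_of_nonneg_left hI hd.le
          _ ≤ (w / 2 * F) * V := by rw [hz4]; exact hz5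
      have h5 : w * (w * (2 * d * δ)) ≤ w * (F * V) := by nlinarith
      exact le_of_mul_le_mul_left h5 hwpos
    intro x hx
    have h4 := hgrad x hx
    have h5 : w ^ 2 ≤ (F * V / (2 * d * δ)) ^ 2 := pow_le_pow_left₀ hw0 hwb 2
    have h6 : d * (C ^ 2 * (w / 2) ^ 2 / c) ≤
        C ^ 2 * V ^ 2 / (256 * c ^ 2 * δ ^ 2) * ((1 + ε) * ε ^ 2 * a ^ 3) := by
      have h7 : d * (C ^ 2 * (w / 2) ^ 2 / c) = d * C ^ 2 / (4 * c) * w ^ 2 := by
        field_simp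
        ring
      have h8 : d * C ^ 2 / (4 * c) * w ^ 2 ≤ d * C ^ 2 / (4 * c) * (F * V / (2 * d * δ)) ^ 2 :=
        mul_le_mul_of_nonneg_left h5 (by positivity)
      have h9 : d * C ^ 2 / (4 * c) * (F * V / (2 * d * δ)) ^ 2 =
          C ^ 2 * F ^ 2 * V ^ 2 / (16 * c * δ ^ 2) / d := by
        field_simp
        ring
      have h10 : C ^ 2 * F ^ 2 * V ^ 2 / (16 * c * δ ^ 2) / d ≤
          C ^ 2 * V ^ 2 / (256 * c ^ 2 * δ ^ 2) * ((1 + ε) * ε ^ 2 * a ^ 3) := by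
        rw [div_le_iff₀ hd]
        have h11 : C ^ 2 * V ^ 2 / (256 * c ^ 2 * δ ^ 2) * ((1 + ε) * ε ^ 2 * a ^ 3) *
            (16 * (1 + ε) * a * c) ≤
            C ^ 2 * V ^ 2 / (256 * c ^ 2 * δ ^ 2) * ((1 + ε) * ε ^ 2 * a ^ 3) * d :=
          mul_le_mul_of_nonneg_left hdc.le (by positivity)
        have h12 : C ^ 2 * F ^ 2 * V ^ 2 / (16 * c * δ ^ 2) =
            C ^ 2 * V ^ 2 / (256 * c ^ 2 * δ ^ 2) * ((1 + ε) * ε ^ 2 * a ^ 3) *
              (16 * (1 + ε) * a * c) := by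
          rw [hF]
          field_simp
          ring
        rw [h12]
        exact h11
      rw [h7]
      exact h8.trans (h9.le.trans h10)
    have h9 : 0 ≤ 4 * C ^ 2 * ((1 + ε) * ε ^ 2 * a ^ 3) := by positivity
    rw [add_mul]
    linarith

/-- The conclusion from the bound of the gradient. -/
theorem grd_fin {C₄ a ε d g t : ℝ} (ha : 0 < a) (ht : a ≤ t)
    (h : d * g ^ 2 ≤ C₄ * ((1 + ε) * ε ^ 2 * a ^ 3))
    (hε : 1000 * C₄ * ((1 + ε) * ε ^ 2) ≤ 1) : d * (g / t) ^ 2 ≤ t / 1000 := by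
  have ht0 : 0 < t := lt_of_lt_of_le ha ht
  have h1 : d * (g / t) ^ 2 = d * g ^ 2 / t ^ 2 := by
    rw [div_pow]
    ring
  rw [h1, div_le_iff₀ (by positivity)]
  have h2 : a ^ 3 ≤ t ^ 3 := pow_le_pow_left₀ ha.le ht 3
  have h3 : 1000 * C₄ * ((1 + ε) * ε ^ 2) * a ^ 3 ≤ 1 * a ^ 3 :=
    mul_le_mul_of_nonneg_right hε (by positivity)
  have h4 : t / 1000 * t ^ 2 = t ^ 3 / 1000 := by ring
  rw [h4]
  nlinarith

/-- GRD. -/
theorem grd_st (hLip : LipStatement) (hOsc : OscStatement) (hIbp : IbpStatement)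
    (hRng : RngStatement) : GrdStatement := by
  intro p Ω q hΩ
  obtain ⟨⟨C, c, hC0, hc0, hC⟩, hconv⟩ := hLip p Ω q hΩ
  by_cases hcv : Convex ℝ Ω
  · refine ⟨1 / 1000, by norm_num, le_rfl, fun _ => rfl, ?_⟩
    intro m a d θ θ' θ'' hmc ha hd hS hm x hx
    have h1 := grd_a hRng hΩ (C := 2) two_pos (hconv hcv _) ha hd (by norm_num) hS hm le_rfl x hx
    have h2 := (grd_bounds hRng hΩ ha hd (by norm_num) hS hm).1 x hx
    exact grd_fin ha h2.1 h1 (by norm_num)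
  · obtain ⟨δ, hδ0, hδ⟩ := hOsc p Ω q (C / (2 * Real.sqrt c)) (1 / 2) hΩ (by norm_num)
    set C₄ : ℝ := 4 * C ^ 2 + C ^ 2 * volume.real Ω ^ 2 / (256 * c ^ 2 * δ ^ 2) with hC4
    have hC40 : 0 < C₄ := by positivity
    refine ⟨min (1 / 1000) (1 / (2 * (C₄ + 1))), by positivity, min_le_left _ _,
      fun h => absurd h hcv, ?_⟩
    set ε : ℝ := min (1 / 1000) (1 / (2 * (C₄ + 1))) with hε
    have hε0 : 0 < ε := by positivity
    have hε1 : ε ≤ 1 / 1000 := min_le_left _ _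
    have hε2 : ε * (2 * (C₄ + 1)) ≤ 1 := by
      have : ε ≤ 1 / (2 * (C₄ + 1)) := min_le_right _ _
      rwa [le_div_iff₀ (by positivity)] at this
    have hsm : 1000 * C₄ * ((1 + ε) * ε ^ 2) ≤ 1 := by
      have h1 : C₄ * ε ≤ 1 / 2 := by nlinarith
      have h2 : 1000 * ε ≤ 1 := by linarith
      have h3 : 0 ≤ C₄ * ε := by positivity
      have h4 : (1000 * ε) * (C₄ * ε) ≤ 1 * (1 / 2) :=
        mul_le_mul h2 h1 h3 (by norm_num)
      have h5 : 1000 * C₄ * ((1 + ε) * ε ^ 2) = (1000 * ε) * (C₄ * ε) * (1 + ε) := by ring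
      rw [h5]
      have h6 : 0 ≤ (1000 * ε) * (C₄ * ε) := by positivity
      nlinarith
    intro m a d θ θ' θ'' hmc ha hd hS hm x hx
    have h2 := (grd_bounds hRng hΩ ha hd hε0.le hS hm).1 x hx
    rcases le_or_gt (d * (1 / (16 * (1 + ε) * a))) c with hcase | hcase
    · have h1 := grd_a hRng hΩ hC0 hC ha hd hε0 hS hm hcase x hx
      have h3 : 4 * C ^ 2 * ((1 + ε) * ε ^ 2 * a ^ 3) ≤ C₄ * ((1 + ε) * ε ^ 2 * a ^ 3) := by
        apply mul_le_mul_of_nonneg_right _ (by positivity)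
        rw [hC4]
        have : 0 ≤ C ^ 2 * volume.real Ω ^ 2 / (256 * c ^ 2 * δ ^ 2) := by positivity
        linarith
      exact grd_fin ha h2.1 (h1.trans h3) hsm
    · have h1 := grd_b hRng hIbp hΩ hC0 hc0 hδ0 hC hδ hmc ha hd hε0 hS hm hcase x hx
      exact grd_fin ha h2.1 h1 hsm

end Pool.Agent.Lib.MP_4fbe7c_an.ND
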